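import Mathlib

namespace Pool.Agent.Results.MP_bd7f44_an.Counter
open Set Real

theorem result : ∃ f : EuclideanSpace ℝ (Fin 2) → ℝ, ContDiff ℝ ⊤ f ∧ StrictConvexOn ℝ univ f ∧
    ¬ Filter.Tendsto (fun x => f x / ‖x‖) (Bornology.cobounded _) Filter.atTop ∧
    ∃ C : Set (EuclideanSpace ℝ (Fin 2)), C.Nonempty ∧ IsCompact C ∧
      (∀ y, ∃! x, x ∈ C ∧ ∀ z ∈ C, f x - f y - inner ℝ (gradient f y) (x - y) ≤
        f z - f y - inner ℝ (gradient f y) (z - y)) ∧ ¬ Convex ℝ C := by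
  let f : EuclideanSpace ℝ (Fin 2) → ℝ := fun v => exp (v 0) + exp (v 1)
  let c : ℝ → EuclideanSpace ℝ (Fin 2) := fun t => !₂[t, log t]
  have hc : ContinuousOn c (Icc 1 2) := (PiLp.continuous_toLp 2 _).comp_continuousOn
    (continuousOn_pi.2 fun i => by
      fin_cases i
      · exact continuousOn_id
      · exact continuousOn_log.mono fun t ht => (zero_lt_one.trans_le ht.1).ne')
  have hg : ∀ y v, inner ℝ (gradient f y) v = exp (y 0) * v 0 + exp (y 1) * v 1 := fun y v => by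
    have := ((EuclideanSpace.proj (𝕜 := ℝ) (0 : Fin 2)).hasFDerivAt (x := y).exp.add
      (EuclideanSpace.proj (𝕜 := ℝ) (1 : Fin 2)).hasFDerivAt.exp).fderiv
    rw [gradient, InnerProductSpace.toDual_symm_apply, show fderiv ℝ f y = _ from this]
    simp
  refine ⟨f, by fun_prop, ⟨convex_univ, fun x _ y _ h a b ha hb hab => ?_⟩, fun h => ?_, c '' Icc 1 2,
    (nonempty_Icc.2 one_le_two).image _, isCompact_Icc.image_of_continuousOn hc, fun y => ?_,
    fun h => ?_⟩
  · have h1 := fun i => convexOn_exp.2 (mem_univ (x i)) (mem_univ (y i)) ha.le hb.le hab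
    have h2 := fun i h => strictConvexOn_exp.2 (mem_univ (x i)) (mem_univ (y i)) h ha hb hab
    have h3 := h1 0
    have h4 := h1 1
    simp only [f, PiLp.add_apply, PiLp.smul_apply, smul_eq_mul] at h2 h3 h4 ⊢
    rcases eq_or_ne (x 0) (y 0) with h5 | h5
    · have := h2 1 fun h6 => h (by ext i; fin_cases i; exacts [h5, h6])
      linarith
    · linarith [h2 0 h5]
  · obtain ⟨R, h1, h2⟩ := (Metric.hasBasis_cobounded_compl_closedBall 0).eventually_iff.1
      (h.eventually_ge_atTop 2)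
    have h3 : |R| + 1 ≤ ‖(!₂[-(|R| + 1), 0] : EuclideanSpace ℝ (Fin 2))‖ :=
      (neg_le_of_abs_le (PiLp.norm_apply_le (!₂[-(|R| + 1), 0] : EuclideanSpace ℝ (Fin 2)) 0)
        |> neg_le_neg_iff.1).trans' le_rfl
    have h4 := le_abs_self R
    have h5 := abs_nonneg R
    have h6 := (le_div_iff₀ (by linarith)).1 (h2 (x := !₂[-(|R| + 1), 0])
      fun h6 => by linarith [mem_closedBall_zero_iff.1 h6])
    have h7 : f !₂[-(|R| + 1), 0] = exp (-(|R| + 1)) + exp 0 := rfl
    have h8 : exp (-(|R| + 1)) < 1 := exp_lt_one_iff.2 (by linarith)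
    rw [exp_zero] at h7
    linarith
  · let g : ℝ → ℝ := fun t => exp t + (t - exp (y 0) * t + exp (y 1) • -log t)
    have h1 : StrictConvexOn ℝ (Icc 1 2) g :=
      (strictConvexOn_exp.subset (subset_univ _) (convex_Icc _ _)).add_convexOn
        (ConvexOn.add ⟨convex_Icc _ _, fun x _ y _ a b _ _ _ => le_of_eq (by simp; ring)⟩
          ((strictConcaveOn_log_Ioi.concaveOn.neg.subset (fun t ht => zero_lt_one.trans_le ht.1)
            (convex_Icc _ _)).smul (exp_pos _).le))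
    have h2 : ∀ s ∈ Icc (1 : ℝ) 2, ∀ t ∈ Icc (1 : ℝ) 2, f (c s) - f y - inner ℝ (gradient f y) (c s - y)
        ≤ f (c t) - f y - inner ℝ (gradient f y) (c t - y) ↔ g s ≤ g t := fun s hs t ht => by
      simp only [hg, f, c, g, PiLp.sub_apply, smul_eq_mul]
      simp only [Matrix.cons_val_zero, Matrix.cons_val_one,
        exp_log (zero_lt_one.trans_le hs.1), exp_log (zero_lt_one.trans_le ht.1)]
      constructor <;> intro <;> linarith
    obtain ⟨s, hs, h3⟩ := isCompact_Icc.exists_isMinOn (nonempty_Icc.2 one_le_two) (f := g)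
      (continuousOn_exp.add ((by fun_prop : ContinuousOn (fun t => t - exp (y 0) * t) _).add
        ((continuousOn_log.mono fun t (ht : t ∈ Icc 1 2) =>
          (zero_lt_one.trans_le ht.1).ne').neg.const_smul (exp (y 1)))))
    refine ⟨c s, ⟨mem_image_of_mem _ hs, ?_⟩, ?_⟩
    · rintro _ ⟨t, ht, rfl⟩
      exact (h2 s hs t ht).2 (h3 ht)
    · rintro _ ⟨⟨t, ht, rfl⟩, h4⟩
      rw [h1.eq_of_isMinOn (fun u hu => (h2 t ht u hu).1 (h4 _ ⟨u, hu, rfl⟩)) h3 ht hs]
  · obtain ⟨t, -, h1⟩ := h ⟨1, left_mem_Icc.2 one_le_two, rfl⟩ ⟨2, right_mem_Icc.2 one_le_two, rfl⟩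
      (a := 1 / 2) (b := 1 / 2) (by norm_num) (by norm_num) (by norm_num)
    have h2 : t = 1 / 2 * 1 + 1 / 2 * 2 := congrArg (fun v => v 0) h1
    have h3 : log t = 1 / 2 * log 1 + 1 / 2 * log 2 := congrArg (fun v => v 1) h1
    exact (strictConcaveOn_log_Ioi.2 (mem_Ioi.2 one_pos) (mem_Ioi.2 two_pos) one_lt_two.ne
      one_half_pos one_half_pos (add_halves 1)).ne (h3.symm.trans (by rw [h2]; rfl))

end Pool.Agent.Results.MP_bd7f44_an.Counter
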